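import Pool.Agent.Helper80K.Ea.Main

/-!
# Linkage on acyclic digraphs of bounded ear anonymity is W[1]-hard

If some algorithm solves the linkage problem on acyclic digraphs in time `f k * |x| ^ g (ea D)`,
for some functions `f` and `g`, then `p`-Clique is decided in time `f' k * p |x|` for some function
`f'` and some polynomial `p`; and if `f` is computable then all problems in `W[1]` are
fixed-parameter tractable.
-/

namespace Pool.Agent.Results.MP_d91e39_lc.LinkageEarHard

open Turing Pool.Agent.NPC Pool.Agent.H557R2.Fpt Pool.Agent.Helper80K.Ea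

/-- The parameterized problem `L` is decided by a Turing machine which makes at most
`f k * p |x|` steps on every `(x, k)`, for some polynomial `p`. -/
def DecidableIn (L : PProblem) (f : ℕ → ℕ) : Prop :=
  ∃ (M : TM2ComputableAux Bool Bool) (p : Polynomial ℕ) (d : List Bool × ℕ → Bool),
    (∀ y, y ∈ L ↔ d y = true) ∧
    ∀ x k, Nonempty (TM2OutputsInTime M.tm ((pcode (x, k)).map M.inputAlphabet.invFun)
      (some ([d (x, k)].map M.outputAlphabet.invFun)) (f k * p.eval x.length))

theorem clique_of_solves {M : TM2ComputableAux Bool Bool} {f g : ℕ → ℕ}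
    (h : SolvesInTime M f g) : ∃ f' : ℕ → ℕ, (Computable f → Computable f') ∧
      DecidableIn pClique f' := by
  classical
  have hd : ∀ y : List Bool × ℕ, ∃ b : Bool, (b = true ↔ Linkage (redFF y).1 (redFF y).2) ∧
      Nonempty (TM2OutputsInTime M.tm ((bits (redFF y)).map M.inputAlphabet.invFun)
        (some ([b].map M.outputAlphabet.invFun))
        (f (redFF y).2.length * (bits (redFF y)).length ^ g (ea (redFF y).1))) := by
    rintro ⟨x, k⟩
    exact h (redFF (x, k)).1 (redFF (x, k)).2 (redFF_spec x k).1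
  choose d hd1 hd2 using hd
  obtain ⟨M', E, B, hB, hrun⟩ := run_after ft_redFF M
  have hrun' := hrun d (fun x k => f (redFF (x, k)).2.length *
    (bits (redFF (x, k))).length ^ g (ea (redFF (x, k)).1)) (fun x k => hd2 (x, k))
  -- the exponent
  obtain ⟨G, hG⟩ : ∃ G, ∀ m ≤ 7, g m ≤ G :=
    ⟨(Finset.range 8).sup g, fun m hm => Finset.le_sup (Finset.mem_range.2 (by omega))⟩
  have hF : FB fun x k => E * (bits (redFF (x, k))).length ^ G := by
    have h1 := (ft_redFF.length).eval (Polynomial.X ^ G)
    simp only [Polynomial.eval_pow, Polynomial.eval_X] at h1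
    exact (FB.const E).mul h1
  obtain ⟨f1, p1, hf1, h1⟩ := hB
  obtain ⟨f2, p2, hf2, h2⟩ := hF
  refine ⟨fun k => f1 k + (f 1 + f (6 * k + k * k)) * f2 k, fun hf => ?_, M', p1 + p2, d, ?_, ?_⟩
  · have h3 : Computable fun k : ℕ => f (6 * k + k * k) :=
      hf.comp (comp_add (comp_mul (Computable.const 6) Computable.id)
        (comp_mul Computable.id Computable.id))
    exact comp_add hf1 (comp_mul (comp_add (Computable.const (f 1)) h3) hf2)
  · rintro ⟨x, k⟩
    rw [(redFF_spec x k).2.2.2, ← hd1 (x, k)]
  · intro x k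
    obtain ⟨h3⟩ := hrun' x k
    refine ⟨outputs_conv rfl rfl ?_ h3⟩
    obtain ⟨-, s2, s3, -⟩ := redFF_spec x k
    have e1 : f (redFF (x, k)).2.length ≤ f 1 + f (6 * k + k * k) := by
      rcases s3 with s3 | s3 <;> rw [s3] <;> omega
    have e2 : (bits (redFF (x, k))).length ^ g (ea (redFF (x, k)).1) ≤
        (bits (redFF (x, k))).length ^ G :=
      Nat.pow_le_pow_right (show 0 < (bits (redFF (x, k))).length from sz_pos (redFF (x, k)))
        (hG _ s2)
    have e3 := h1 x k
    have e4 := h2 x k
    simp only at e4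
    simp only [Polynomial.eval_add]
    generalize (bits (redFF (x, k))).length ^ g (ea (redFF (x, k)).1) = X at *
    generalize (bits (redFF (x, k))).length ^ G = Y at *
    generalize f (redFF (x, k)).2.length = a at *
    generalize f 1 + f (6 * k + k * k) = b at *
    generalize p1.eval x.length = P1 at *
    generalize p2.eval x.length = P2 at *
    calc B x k + E * (a * X) ≤ f1 k * P1 + b * (E * Y) := by
          refine Nat.add_le_add e3 ?_
          calc E * (a * X) = a * (E * X) := by ring
            _ ≤ b * (E * Y) := Nat.mul_le_mul e1 (Nat.mul_le_mul_left _ e2)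
      _ ≤ f1 k * P1 + b * (f2 k * P2) := Nat.add_le_add_left (Nat.mul_le_mul_left _ e4) _
      _ ≤ (f1 k + b * f2 k) * (P1 + P2) := by
          have : (f1 k + b * f2 k) * (P1 + P2) = f1 k * P1 + b * (f2 k * P2) +
            (f1 k * P2 + b * f2 k * P1) := by ring
          omega

theorem w1_of_clique {f : ℕ → ℕ} (hf : Computable f) (h : DecidableIn pClique f) :
    ∀ L ∈ W1, FptDecidable L := by
  rintro L ⟨R, hR, ⟨g, hg, hgk⟩, hL⟩
  obtain ⟨M, p, d, hd, hM⟩ := h
  have hR' : FT (bits : List Bool × List Unit → List Bool)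
      (fun y => ((R y).1, List.replicate (R y).2 ())) := hR.toFT
  obtain ⟨M', E, B, hB, hrun⟩ := run_after hR' M
  have hrun' := hrun (fun y => d (R y)) (fun x k => f (R (x, k)).2 * p.eval (R (x, k)).1.length)
    (fun x k => hM (R (x, k)).1 (R (x, k)).2)
  obtain ⟨f', hf', hmono, hle⟩ := exists_mono hf
  have hlen : FB fun x k => (R (x, k)).1.length := by
    refine hR'.length.of_le fun x k => ?_
    have h1 : (bits ((R (x, k)).1, List.replicate (R (x, k)).2 ())).length =
        sz (R (x, k)).1 + sz (List.replicate (R (x, k)).2 ()) + 1 := sz_pair _ _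
    have h2 := length_lt_sz (R (x, k)).1
    omega
  have hB' : FB fun x k => B x k + E * (f' (g k) * p.eval (R (x, k)).1.length) :=
    hB.add ((FB.const E).mul ((FB.par (hf'.comp hg)).mul (hlen.eval p)))
  obtain ⟨f1, p1, hf1, h1⟩ := hB'
  refine ⟨M', f1, p1, fun y => d (R y), hf1, fun y => ?_, fun x k => ?_⟩
  · obtain ⟨x, k⟩ := y
    rw [hL x k, hd]
  · obtain ⟨h3⟩ := hrun' x k
    refine ⟨outputs_conv rfl rfl (le_trans ?_ (h1 x k)) h3⟩
    refine Nat.add_le_add_left (Nat.mul_le_mul_left _ (Nat.mul_le_mul_right _ ?_)) _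
    exact (hle _).trans (hmono (hgk x k))

/-- There is a polynomial-time reduction from `p`-Clique to the linkage problem on acyclic digraphs
of ear anonymity at most `7` with at most `k ^ 2 + 6 * k + 1` pairs. -/
theorem reduction : ∃ F : List Bool → List Bool, PolyTime F ∧ ∀ (x : List Bool) (k : ℕ),
    ∃ (D : Dig) (S : List (ℕ × ℕ)), F (pcode (x, k)) = bits (D, S) ∧ Acyclic D ∧ ea D ≤ 7 ∧
      S.length ≤ 6 * k + k * k + 1 ∧ ((x, k) ∈ pClique ↔ Linkage D S) := by
  refine ⟨_, polyTime_opt (Poly.optMap (o := unbits (List Bool × List Unit))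
    (f := fun _ a => redG a) poly_unbits (poly_redG.comp (Poly.snd Poly.id))), fun x k => ?_⟩
  obtain ⟨h1, h2, h3, h4⟩ := redFF_spec x k
  refine ⟨(redFF (x, k)).1, (redFF (x, k)).2, ?_, h1, h2, by omega, h4⟩
  unfold pcode
  rw [unbits_bits]
  rfl

/-- **Main theorem.** The linkage problem on acyclic digraphs is not solvable in time
`f k * |x| ^ g (ea D)` unless `p`-Clique is solvable in time `f' k * p |x|`, and for computable `f`
unless all problems in `W[1]` are fixed-parameter tractable. (The reduction is in the theorem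
`reduction` above.) -/
theorem result (M : TM2ComputableAux Bool Bool) (f g : ℕ → ℕ) (h : SolvesInTime M f g) :
    (∃ f' : ℕ → ℕ, DecidableIn pClique f') ∧ (Computable f → ∀ L ∈ W1, FptDecidable L) := by
  obtain ⟨f', h1, h2⟩ := clique_of_solves h
  exact ⟨⟨f', h2⟩, fun hf => w1_of_clique (h1 hf) h2⟩

end Pool.Agent.Results.MP_d91e39_lc.LinkageEarHard
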